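import Mathlib

/-!
Definitions for MP_2d6919_lc: complete Boolean algebras, measures on them, complete subalgebras,
continuous outer measures.
-/

open Filter Topology Set

universe u

namespace Pool.Agent.R318.MA

/-- The countable chain condition: every set of pairwise disjoint nonzero elements is countable. -/
def CCC (B : Type u) [BooleanAlgebra B] : Prop :=
  ∀ S : Set B, (∀ a ∈ S, a ≠ ⊥) → (∀ a ∈ S, ∀ b ∈ S, a ≠ b → Disjoint a b) → S.Countable

/-- A measure on a Boolean algebra: a strictly positive map into `[0, ∞)` which is countably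
additive on all sequences of pairwise disjoint elements whose supremum exists. -/
def IsMeasure {A : Type u} [BooleanAlgebra A] (μ : A → ℝ) : Prop :=
  (∀ a, 0 ≤ μ a) ∧ (∀ a, a ≠ ⊥ → 0 < μ a) ∧
    ∀ (a : ℕ → A) (s : A), (∀ i j, i ≠ j → Disjoint (a i) (a j)) → IsLUB (Set.range a) s →
      HasSum (fun n => μ (a n)) (μ s)

/-- A subalgebra closed under all suprema and infima taken in the whole algebra. -/
def IsCompleteSub {B : Type u} [CompleteBooleanAlgebra B] (C : BooleanSubalgebra B) : Prop :=
  ∀ S : Set B, S ⊆ (C : Set B) → sSup S ∈ C ∧ sInf S ∈ C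

/-- `C` is a countably generated complete subalgebra: it is the smallest complete subalgebra
containing some countable set. -/
def IsCountablyGenerated {B : Type u} [CompleteBooleanAlgebra B] (C : BooleanSubalgebra B) :
    Prop :=
  IsCompleteSub C ∧ ∃ G : Set B, G.Countable ∧ G ⊆ (C : Set B) ∧
    ∀ D : BooleanSubalgebra B, IsCompleteSub D → G ⊆ (D : Set B) → C ≤ D

/-- A continuous outer measure. -/
structure IsContOuter {B : Type u} [CompleteBooleanAlgebra B] (m : B → ℝ) : Prop where
  nonneg : ∀ a, 0 ≤ m a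
  bot : m ⊥ = 0
  pos : ∀ a, a ≠ ⊥ → 0 < m a
  mono : ∀ a b, a ≤ b → m a ≤ m b
  sub : ∀ a b, m (a ⊔ b) ≤ m a + m b
  cont : ∀ a : ℕ → B, (∀ n, a (n + 1) ≤ a n) → (⨅ n, a n) = ⊥ →
    Tendsto (fun n => m (a n)) atTop (𝓝 0)

end Pool.Agent.R318.MA
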