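import Mathlib
import Pool.Agent.R318.MA.Defs

/-!
A complete Boolean algebra with a continuous outer measure, all of whose countably generated
complete subalgebras admit measures, admits a measure.
-/

open Filter Topology Set

universe u

namespace Pool.Agent.R318.MA

variable {B : Type u} [CompleteBooleanAlgebra B]

/-- A strictly positive countably additive function on a subset `C` of `B`. -/
structure MOn (C : BooleanSubalgebra B) (μ : B → ℝ) : Prop where
  nonneg : ∀ a ∈ C, 0 ≤ μ a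
  pos : ∀ a ∈ C, a ≠ ⊥ → 0 < μ a
  sum : ∀ a : ℕ → B, (∀ n, a n ∈ C) → (∀ i j, i ≠ j → Disjoint (a i) (a j)) →
    HasSum (fun n => μ (a n)) (μ (⨆ n, a n))

lemma IsCompleteSub.iSup {C : BooleanSubalgebra B} (hC : IsCompleteSub C) {ι : Sort*}
    (f : ι → B) (hf : ∀ i, f i ∈ C) : (⨆ i, f i) ∈ C := by
  have := (hC (Set.range f) (by rintro x ⟨i, rfl⟩; exact hf i)).1
  simpa [sSup_range] using this

lemma IsCompleteSub.iInf {C : BooleanSubalgebra B} (hC : IsCompleteSub C) {ι : Sort*}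
    (f : ι → B) (hf : ∀ i, f i ∈ C) : (⨅ i, f i) ∈ C := by
  have := (hC (Set.range f) (by rintro x ⟨i, rfl⟩; exact hf i)).2
  simpa [sInf_range] using this

open Classical in
lemma MOn.of_isMeasure {C : BooleanSubalgebra B} (hC : IsCompleteSub C) {μ : C → ℝ}
    (hμ : IsMeasure μ) : ∃ ν : B → ℝ, MOn C ν := by
  refine ⟨fun b => if h : b ∈ C then μ ⟨b, h⟩ else 0, ?_, ?_, ?_⟩
  · intro a ha
    simp only [ha, dif_pos]
    exact hμ.1 _
  · intro a ha h0
    simp only [ha, dif_pos]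
    apply hμ.2.1
    intro h
    exact h0 (by simpa using congrArg Subtype.val h)
  · intro a ha hd
    have hs : (⨆ n, a n) ∈ C := hC.iSup a ha
    have h1 := hμ.2.2 (fun n => ⟨a n, ha n⟩) ⟨⨆ n, a n, hs⟩ (by
      intro i j hij
      have := hd i j hij
      rw [disjoint_iff] at this ⊢
      apply Subtype.ext
      simpa using this) (by
      constructor
      · rintro x ⟨n, rfl⟩
        exact le_iSup a n
      · intro x hx
        show (⨆ n, a n) ≤ (x : B)
        apply iSup_le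
        intro n
        exact hx ⟨n, rfl⟩)
    have h2 : (fun n => if h : a n ∈ C then μ ⟨a n, h⟩ else 0) = fun n => μ ⟨a n, ha n⟩ := by
      funext n
      simp only [ha n, dif_pos]
    rw [h2]
    simp only [hs, dif_pos]
    exact h1

variable {C : BooleanSubalgebra B} {μ : B → ℝ}

lemma MOn.bot (h : MOn C μ) : μ ⊥ = 0 := by
  have h1 := h.sum (fun _ => ⊥) (fun _ => BooleanSubalgebra.bot_mem) (by simp)
  have h2 := h1.summable.tendsto_atTop_zero
  exact tendsto_nhds_unique tendsto_const_nhds h2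

lemma MOn.add (h : MOn C μ) {a b : B} (ha : a ∈ C) (hb : b ∈ C) (hd : Disjoint a b) :
    μ (a ⊔ b) = μ a + μ b := by
  let f : ℕ → B := fun n => if n = 0 then a else if n = 1 then b else ⊥
  have hf : (⨆ n, f n) = a ⊔ b := by
    apply le_antisymm
    · apply iSup_le
      intro n
      by_cases h0 : n = 0
      · simp [f, h0]
      · by_cases h1 : n = 1
        · simp [f, h1]
        · simp [f, h0, h1]
    · apply sup_le
      · exact le_trans (by simp [f]) (le_iSup f 0)
      · exact le_trans (by simp [f]) (le_iSup f 1)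
  have h1 := h.sum f (by
    intro n
    by_cases h0 : n = 0
    · simpa [f, h0] using ha
    · by_cases h1 : n = 1
      · simpa [f, h1] using hb
      · simp [f, h0, h1]) (by
    intro i j hij
    by_cases hi0 : i = 0 <;> by_cases hj0 : j = 0 <;> by_cases hi1 : i = 1 <;>
      by_cases hj1 : j = 1 <;> simp_all [f, disjoint_comm])
  rw [hf] at h1
  have h2 : HasSum (fun n => μ (f n)) (∑ n ∈ Finset.range 2, μ (f n)) := by
    apply hasSum_sum_of_ne_finset_zero
    intro n hn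
    have h3 : ¬ n < 2 := by simpa using hn
    have h4 : f n = ⊥ := by
      have h0 : n ≠ 0 := by omega
      have h1 : n ≠ 1 := by omega
      simp [f, h0, h1]
    rw [h4, h.bot]
  have h3 := h1.unique h2
  rw [h3]
  simp [Finset.sum_range_succ, f]

lemma MOn.mono (h : MOn C μ) {a b : B} (ha : a ∈ C) (hb : b ∈ C) (hab : a ≤ b) :
    μ a ≤ μ b := by
  have h1 : b = a ⊔ (b \ a) := by simp [hab]
  have h2 := h.add ha (BooleanSubalgebra.sdiff_mem hb ha) disjoint_sdiff_self_right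
  rw [← h1] at h2
  rw [h2]
  have := h.nonneg _ (BooleanSubalgebra.sdiff_mem hb ha)
  linarith

lemma disjointed_mem (C : BooleanSubalgebra B) {a : ℕ → B} (ha : ∀ n, a n ∈ C) (n : ℕ) :
    disjointed a n ∈ C := by
  have hps : ∀ n, partialSups a n ∈ C := by
    intro n
    induction n with
    | zero => simpa using ha 0
    | succ k ih =>
      rw [partialSups_add_one]
      exact BooleanSubalgebra.sup_mem ih (ha _)
  cases n with
  | zero => simpa using ha 0
  | succ k =>
    rw [disjointed_add_one]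
    exact BooleanSubalgebra.sdiff_mem (ha _) (hps k)

lemma MOn.iSup_le (h : MOn C μ) {a : ℕ → B} (ha : ∀ n, a n ∈ C) {c : ℝ}
    (hc : ∀ N, ∑ i ∈ Finset.range N, μ (a i) ≤ c) : μ (⨆ n, a n) ≤ c := by
  have h1 := h.sum (disjointed a) (disjointed_mem C ha) (by
    intro i j hij
    exact disjoint_disjointed a hij)
  rw [iSup_disjointed] at h1
  have h2 := h1.tendsto_sum_nat
  refine le_of_tendsto' h2 ?_
  intro N
  refine le_trans ?_ (hc N)
  apply Finset.sum_le_sum
  intro i _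
  exact h.mono (disjointed_mem C ha i) (ha i) (disjointed_le a i)

/-- Countable subadditivity of a continuous outer measure. -/
lemma IsContOuter.finset_sup {m : B → ℝ} (hm : IsContOuter m) (a : ℕ → B) (N : ℕ) :
    m ((Finset.range N).sup a) ≤ ∑ i ∈ Finset.range N, m (a i) := by
  induction N with
  | zero => simp [hm.bot]
  | succ k ih =>
    rw [Finset.range_add_one, Finset.sup_insert, Finset.sum_insert (by simp)]
    refine (hm.sub _ _).trans ?_
    linarith

lemma sup_range_mono (a : ℕ → B) : Monotone (fun N => (Finset.range N).sup a) := by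
  intro N M h
  exact Finset.sup_mono (Finset.range_mono h)

lemma iSup_sup_range (a : ℕ → B) : (⨆ N, (Finset.range N).sup a) = ⨆ n, a n := by
  apply le_antisymm
  · apply _root_.iSup_le
    intro N
    apply Finset.sup_le
    intro i _
    exact le_iSup a i
  · apply _root_.iSup_le
    intro n
    refine le_trans ?_ (le_iSup _ (n + 1))
    exact Finset.le_sup (f := a) (by simp)

lemma tendsto_sdiff {m : B → ℝ} (hm : IsContOuter m) {b : ℕ → B} (hb : Monotone b) :
    Tendsto (fun n => m ((⨆ k, b k) \ b n)) atTop (𝓝 0) := by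
  apply hm.cont
  · intro n
    exact sdiff_le_sdiff_left (hb (Nat.le_succ n))
  · have : (⨅ n, (⨆ k, b k) \ b n) = (⨆ k, b k) \ (⨆ n, b n) := by
      rw [_root_.sdiff_eq, compl_iSup, inf_iInf]
      simp only [_root_.sdiff_eq]
    rw [this, _root_.sdiff_self]

lemma IsContOuter.iSup_le {m : B → ℝ} (hm : IsContOuter m) {a : ℕ → B} {c : ℝ}
    (hc : ∀ N, ∑ i ∈ Finset.range N, m (a i) ≤ c) : m (⨆ n, a n) ≤ c := by
  have h1 := tendsto_sdiff hm (sup_range_mono a)
  rw [iSup_sup_range] at h1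
  have h2 : Tendsto (fun n => c + m ((⨆ n, a n) \ (Finset.range n).sup a)) atTop (𝓝 (c + 0)) :=
    tendsto_const_nhds.add h1
  rw [add_zero] at h2
  refine ge_of_tendsto' h2 ?_
  intro N
  have h3 : (⨆ n, a n) ≤ (Finset.range N).sup a ⊔ ((⨆ n, a n) \ (Finset.range N).sup a) := by
    rw [sup_sdiff_self_right]
    exact le_sup_right
  refine (hm.mono _ _ h3).trans ((hm.sub _ _).trans ?_)
  have := hm.finset_sup a N
  have := hc N
  linarith

lemma geo_le (M : ℕ) : ∑ i ∈ Finset.range M, (1 / 2 : ℝ) ^ i ≤ 2 := by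
  rw [geom_sum_eq (by norm_num), div_le_iff_of_neg (by norm_num)]
  have : (0 : ℝ) ≤ (1 / 2) ^ M := by positivity
  linarith

/-- On a complete subalgebra with a measure the outer measure is absolutely continuous. -/
lemma modulus {m : B → ℝ} (hm : IsContOuter m) (hC : IsCompleteSub C) (h : MOn C μ) {ε : ℝ}
    (hε : 0 < ε) : ∃ δ : ℝ, 0 < δ ∧ ∀ a ∈ C, ε ≤ m a → δ ≤ μ a := by
  by_contra hcon
  push Not at hcon
  choose a haC ham haμ using fun n : ℕ => hcon ((1 / 2 : ℝ) ^ n) (by positivity)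
  let b : ℕ → B := fun N => ⨆ n, a (N + n)
  have hbC : ∀ N, b N ∈ C := fun N => hC.iSup _ (fun n => haC _)
  have hbanti : ∀ N, b (N + 1) ≤ b N := by
    intro N
    apply _root_.iSup_le
    intro n
    refine le_trans (le_of_eq ?_) (le_iSup _ (n + 1))
    show a (N + 1 + n) = a (N + (n + 1))
    congr 1
    ring
  have hbμ : ∀ N, μ (b N) ≤ (1 / 2 : ℝ) ^ N * 2 := by
    intro N
    apply h.iSup_le (fun n => haC _)
    intro M
    have h1 : ∀ i ∈ Finset.range M, μ (a (N + i)) ≤ (1 / 2 : ℝ) ^ N * (1 / 2 : ℝ) ^ i := by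
      intro i _
      rw [← pow_add]
      exact (haμ _).le
    refine (Finset.sum_le_sum h1).trans ?_
    rw [← Finset.mul_sum]
    have h2 : ∑ i ∈ Finset.range M, (1 / 2 : ℝ) ^ i ≤ 2 := geo_le M
    exact mul_le_mul_of_nonneg_left h2 (by positivity)
  have hinfC : (⨅ N, b N) ∈ C := hC.iInf _ hbC
  have hinf : (⨅ N, b N) = ⊥ := by
    by_contra hne
    have h1 := h.pos _ hinfC hne
    have h2 : ∀ N, μ (⨅ N, b N) ≤ (1 / 2 : ℝ) ^ N * 2 := fun N =>
      (h.mono hinfC (hbC N) (iInf_le _ _)).trans (hbμ N)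
    have h3 : Tendsto (fun N : ℕ => (1 / 2 : ℝ) ^ N * 2) atTop (𝓝 (0 * 2)) :=
      (tendsto_pow_atTop_nhds_zero_of_lt_one (by norm_num) (by norm_num)).mul_const 2
    rw [zero_mul] at h3
    have h4 := ge_of_tendsto' h3 h2
    linarith
  have h1 := hm.cont b hbanti hinf
  have h2 : ∀ N, ε ≤ m (b N) := by
    intro N
    refine (ham N).trans (hm.mono _ _ ?_)
    exact le_trans (le_of_eq (by simp)) (le_iSup (fun n => a (N + n)) 0)
  have h3 := ge_of_tendsto' h1 h2
  linarith

/-- The complete subalgebra generated by a set. -/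
noncomputable def gen (G : Set B) : BooleanSubalgebra B :=
  sInf {D | IsCompleteSub D ∧ G ⊆ (D : Set B)}

lemma mem_gen {G : Set B} {x : B} :
    x ∈ gen G ↔ ∀ D : BooleanSubalgebra B, IsCompleteSub D → G ⊆ (D : Set B) → x ∈ D := by
  unfold gen
  rw [BooleanSubalgebra.mem_sInf]
  constructor
  · intro h D h1 h2
    exact h D ⟨h1, h2⟩
  · intro h D hD
    exact h D hD.1 hD.2

lemma gen_complete (G : Set B) : IsCompleteSub (gen G) := by
  intro S hS
  constructor
  · rw [mem_gen]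
    intro D h1 h2
    exact (h1 S (fun x hx => mem_gen.mp (hS hx) D h1 h2)).1
  · rw [mem_gen]
    intro D h1 h2
    exact (h1 S (fun x hx => mem_gen.mp (hS hx) D h1 h2)).2

lemma subset_gen (G : Set B) : G ⊆ (gen G : Set B) := by
  intro x hx
  show x ∈ gen G
  rw [mem_gen]
  intro D _ h2
  exact h2 hx

lemma gen_mono {G H : Set B} (h : G ⊆ H) : gen G ≤ gen H := by
  intro x hx
  rw [mem_gen] at hx ⊢
  intro D h1 h2
  exact hx D h1 (h.trans h2)

lemma gen_cg {G : Set B} (hG : G.Countable) : IsCountablyGenerated (gen G) := by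
  refine ⟨gen_complete G, G, hG, subset_gen G, ?_⟩
  intro D h1 h2 x hx
  exact mem_gen.mp hx D h1 h2

lemma MOn.restrict {D : BooleanSubalgebra B} (h : MOn C μ) (hD : D ≤ C) : MOn D μ :=
  ⟨fun a ha => h.nonneg a (hD ha), fun a ha => h.pos a (hD ha),
    fun a ha => h.sum a (fun n => hD (ha n))⟩

lemma MOn.smul (h : MOn C μ) {c : ℝ} (hc : 0 < c) : MOn C (fun a => c * μ a) :=
  ⟨fun a ha => mul_nonneg hc.le (h.nonneg a ha), fun a ha h0 => mul_pos hc (h.pos a ha h0),
    fun a ha hd => (h.sum a ha hd).mul_left c⟩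

/-- Uniform modulus of absolute continuity. -/
lemma uniform_modulus {m : B → ℝ} (hm : IsContOuter m) (hB : (⊤ : B) ≠ ⊥)
    (hyp : ∀ G : Set B, G.Countable → ∃ μ : B → ℝ, MOn (gen G) μ) {ε : ℝ} (hε : 0 < ε) :
    ∃ δ : ℝ, 0 < δ ∧ ∀ G : Set B, G.Countable → ∃ μ : B → ℝ, MOn (gen G) μ ∧ μ ⊤ = 1 ∧
      ∀ a ∈ gen G, ε ≤ m a → δ ≤ μ a := by
  by_contra hcon
  push Not at hcon
  choose G hGc hG using fun n : ℕ => hcon (1 / ((n : ℝ) + 1)) (by positivity)
  obtain ⟨μ, hμ⟩ := hyp (⋃ n, G n) (Set.countable_iUnion hGc)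
  have htop : 0 < μ ⊤ := hμ.pos _ BooleanSubalgebra.top_mem hB
  have hμ1 := hμ.smul (inv_pos.mpr htop)
  obtain ⟨δ, hδ, hδ2⟩ := modulus hm (gen_complete _) hμ1 hε
  obtain ⟨n, hn⟩ := exists_nat_one_div_lt hδ
  have hle : gen (G n) ≤ gen (⋃ n, G n) := gen_mono (Set.subset_iUnion G n)
  obtain ⟨a, ha, h1, h2⟩ := hG n _ (hμ1.restrict hle) (by field_simp)
  have := hδ2 a (hle ha) h1
  linarith

/-- A finitely additive probability with a modulus, by compactness. -/
lemma exists_fa {m : B → ℝ} {ε δ : ℝ}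
    (h : ∀ G : Set B, G.Countable → ∃ μ : B → ℝ, MOn (gen G) μ ∧ μ ⊤ = 1 ∧
      ∀ a ∈ gen G, ε ≤ m a → δ ≤ μ a) :
    ∃ ν : B → ℝ, (∀ a, 0 ≤ ν a ∧ ν a ≤ 1) ∧
      (∀ a b, Disjoint a b → ν (a ⊔ b) = ν a + ν b) ∧ (∀ a, ε ≤ m a → δ ≤ ν a) := by
  classical
  let K : Set (B → ℝ) := Set.pi Set.univ (fun _ => Set.Icc (0 : ℝ) 1)
  have hK : IsCompact K := isCompact_univ_pi (fun _ => isCompact_Icc)
  let Z : Finset B → Set (B → ℝ) := fun F => K ∩ {ν | (∀ a ∈ F, ∀ b ∈ F, Disjoint a b →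
    ν (a ⊔ b) = ν a + ν b) ∧ ∀ a ∈ F, ε ≤ m a → δ ≤ ν a}
  have hclosed : ∀ F : Finset B, IsClosed {ν : B → ℝ | (∀ a ∈ F, ∀ b ∈ F, Disjoint a b →
    ν (a ⊔ b) = ν a + ν b) ∧ ∀ a ∈ F, ε ≤ m a → δ ≤ ν a} := by
    intro F
    apply IsClosed.inter
    · have : {ν : B → ℝ | ∀ a ∈ F, ∀ b ∈ F, Disjoint a b → ν (a ⊔ b) = ν a + ν b} =
        ⋂ a ∈ F, ⋂ b ∈ F, ⋂ (_ : Disjoint a b), {ν : B → ℝ | ν (a ⊔ b) = ν a + ν b} := by
        ext ν
        simp
      show IsClosed {ν : B → ℝ | ∀ a ∈ F, ∀ b ∈ F, Disjoint a b → ν (a ⊔ b) = ν a + ν b}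
      rw [this]
      refine isClosed_iInter fun a => isClosed_iInter fun _ => isClosed_iInter fun b =>
        isClosed_iInter fun _ => isClosed_iInter fun _ => ?_
      have c1 : Continuous (fun ν : B → ℝ => ν (a ⊔ b)) := continuous_apply _
      have c2 : Continuous (fun ν : B → ℝ => ν a) := continuous_apply _
      have c3 : Continuous (fun ν : B → ℝ => ν b) := continuous_apply _
      exact isClosed_eq c1 (c2.add c3)
    · have : {ν : B → ℝ | ∀ a ∈ F, ε ≤ m a → δ ≤ ν a} =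
        ⋂ a ∈ F, ⋂ (_ : ε ≤ m a), {ν : B → ℝ | δ ≤ ν a} := by
        ext ν
        simp
      show IsClosed {ν : B → ℝ | ∀ a ∈ F, ε ≤ m a → δ ≤ ν a}
      rw [this]
      refine isClosed_iInter fun a => isClosed_iInter fun _ => isClosed_iInter fun _ => ?_
      exact isClosed_le continuous_const (continuous_apply _)
  have hdir : Directed (· ⊇ ·) Z := by
    intro F F'
    refine ⟨F ∪ F', ?_, ?_⟩
    · rintro ν ⟨h1, h2, h3⟩
      exact ⟨h1, fun a ha b hb => h2 a (Finset.mem_union_left _ ha) b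
        (Finset.mem_union_left _ hb), fun a ha => h3 a (Finset.mem_union_left _ ha)⟩
    · rintro ν ⟨h1, h2, h3⟩
      exact ⟨h1, fun a ha b hb => h2 a (Finset.mem_union_right _ ha) b
        (Finset.mem_union_right _ hb), fun a ha => h3 a (Finset.mem_union_right _ ha)⟩
  have hne : ∀ F, (Z F).Nonempty := by
    intro F
    obtain ⟨μ, h1, h2, h3⟩ := h (F : Set B) F.countable_toSet
    refine ⟨fun a => if a ∈ gen (F : Set B) then μ a else 0, ?_, ?_, ?_⟩
    · intro a _
      by_cases ha : a ∈ gen (F : Set B)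
      · simp only [ha, if_true]
        exact ⟨h1.nonneg a ha, h2 ▸ h1.mono ha BooleanSubalgebra.top_mem le_top⟩
      · simp [ha]
    · intro a ha b hb hd
      have ha' : a ∈ gen (F : Set B) := subset_gen _ ha
      have hb' : b ∈ gen (F : Set B) := subset_gen _ hb
      have hab : a ⊔ b ∈ gen (F : Set B) := BooleanSubalgebra.sup_mem ha' hb'
      simp only [ha', hb', hab, if_true]
      exact h1.add ha' hb' hd
    · intro a ha hm
      have ha' : a ∈ gen (F : Set B) := subset_gen _ ha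
      simp only [ha', if_true]
      exact h3 a ha' hm
  obtain ⟨ν, hν⟩ := IsCompact.nonempty_iInter_of_directed_nonempty_isCompact_isClosed Z hdir hne
    (fun F => hK.inter_right (hclosed F)) (fun F => hK.isClosed.inter (hclosed F))
  rw [Set.mem_iInter] at hν
  refine ⟨ν, fun a => (hν (∅ : Finset B)).1 a (Set.mem_univ _), ?_, ?_⟩
  · intro a b hd
    exact (hν {a, b}).2.1 a (by simp) b (by simp) hd
  · intro a ha
    exact (hν {a}).2.2 a (by simp) ha

/-- A strictly positive finitely additive functional. -/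
lemma exists_pos_fa {m : B → ℝ} (hm : IsContOuter m)
    (h : ∀ ε : ℝ, 0 < ε → ∃ δ : ℝ, 0 < δ ∧ ∃ ν : B → ℝ, (∀ a, 0 ≤ ν a ∧ ν a ≤ 1) ∧
      (∀ a b, Disjoint a b → ν (a ⊔ b) = ν a + ν b) ∧ (∀ a, ε ≤ m a → δ ≤ ν a)) :
    ∃ ν : B → ℝ, (∀ a, 0 ≤ ν a) ∧ (∀ a, a ≠ ⊥ → 0 < ν a) ∧
      (∀ a b, Disjoint a b → ν (a ⊔ b) = ν a + ν b) := by
  choose δ hδ ν h1 h2 h3 using fun n : ℕ => h (1 / ((n : ℝ) + 1)) (by positivity)
  have hsum : ∀ a, Summable (fun n : ℕ => (1 / 2 : ℝ) ^ n * ν n a) := by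
    intro a
    refine Summable.of_nonneg_of_le (fun n => mul_nonneg (by positivity) (h1 n a).1)
      (fun n => ?_) (summable_geometric_of_lt_one (r := (1 / 2 : ℝ)) (by norm_num) (by norm_num))
    exact mul_le_of_le_one_right (by positivity) (h1 n a).2
  refine ⟨fun a => ∑' n : ℕ, (1 / 2 : ℝ) ^ n * ν n a, ?_, ?_, ?_⟩
  · intro a
    exact tsum_nonneg (fun n => mul_nonneg (by positivity) (h1 n a).1)
  · intro a ha
    obtain ⟨n, hn⟩ := exists_nat_one_div_lt (hm.pos a ha)
    have h4 := h3 n a hn.le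
    refine (hsum a).tsum_pos (fun n => mul_nonneg (by positivity) (h1 n a).1) n ?_
    exact mul_pos (by positivity) (lt_of_lt_of_le (hδ n) h4)
  · intro a b hd
    show ∑' n : ℕ, (1 / 2 : ℝ) ^ n * ν n (a ⊔ b) = _
    rw [← (hsum a).tsum_add (hsum b)]
    congr 1
    funext n
    rw [h2 n a b hd]
    ring

section CA

variable {ν : B → ℝ} (h0 : ∀ a, 0 ≤ ν a) (hadd : ∀ a b, Disjoint a b → ν (a ⊔ b) = ν a + ν b)

/-- Admissible values for the countably additive part. -/
def Adm (ν : B → ℝ) (a : B) : Set ℝ :=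
  {c | ∃ b : ℕ → B, Monotone b ∧ (⨆ n, b n) = a ∧ ∀ n, ν (b n) ≤ c}

/-- The countably additive part. -/
noncomputable def cap (ν : B → ℝ) (a : B) : ℝ := sInf (Adm ν a)

lemma adm_ne (ν : B → ℝ) (a : B) : (Adm ν a).Nonempty :=
  ⟨ν a, fun _ => a, monotone_const, by simp, fun _ => le_rfl⟩

include h0 in
lemma adm_nonneg {a : B} {c : ℝ} (hc : c ∈ Adm ν a) : 0 ≤ c := by
  obtain ⟨b, _, _, h3⟩ := hc
  exact (h0 _).trans (h3 0)

include h0 in
lemma adm_bdd (a : B) : BddBelow (Adm ν a) := ⟨0, fun _ hc => adm_nonneg h0 hc⟩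

include h0 in
lemma cap_nonneg (a : B) : 0 ≤ cap ν a := le_csInf (adm_ne ν a) (fun _ hc => adm_nonneg h0 hc)

include h0 in
lemma cap_le {a : B} {c : ℝ} (hc : c ∈ Adm ν a) : cap ν a ≤ c := csInf_le (adm_bdd h0 a) hc

lemma exists_of_cap_lt {a : B} {c : ℝ} (hc : cap ν a < c) : c ∈ Adm ν a := by
  obtain ⟨c', ⟨b, h1, h2, h3⟩, hlt⟩ := exists_lt_of_csInf_lt (adm_ne ν a) hc
  exact ⟨b, h1, h2, fun n => (h3 n).trans hlt.le⟩

include h0 hadd in
lemma nu_mono {a b : B} (hab : a ≤ b) : ν a ≤ ν b := by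
  have h1 : b = a ⊔ (b \ a) := by simp [hab]
  have h2 := hadd a (b \ a) disjoint_sdiff_self_right
  rw [← h1] at h2
  have := h0 (b \ a)
  linarith

include h0 hadd in
lemma cap_super {a a' : B} (hd : Disjoint a a') : cap ν a + cap ν a' ≤ cap ν (a ⊔ a') := by
  refine le_csInf (adm_ne ν _) ?_
  rintro c ⟨b, h1, h2, h3⟩
  have ha : (⨆ n, b n ⊓ a) = a := by
    rw [← iSup_inf_eq, h2]
    simp
  have ha' : (⨆ n, b n ⊓ a') = a' := by
    rw [← iSup_inf_eq, h2]
    simp
  have key : ∀ n k, ν (b n ⊓ a) + ν (b k ⊓ a') ≤ c := by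
    intro n k
    have e1 : ν (b n ⊓ a) ≤ ν (b (max n k) ⊓ a) :=
      nu_mono h0 hadd (inf_le_inf_right _ (h1 (le_max_left n k)))
    have e2 : ν (b k ⊓ a') ≤ ν (b (max n k) ⊓ a') :=
      nu_mono h0 hadd (inf_le_inf_right _ (h1 (le_max_right n k)))
    have e3 := hadd (b (max n k) ⊓ a) (b (max n k) ⊓ a')
      (hd.mono inf_le_right inf_le_right)
    have e4 : ν (b (max n k) ⊓ a ⊔ b (max n k) ⊓ a') ≤ ν (b (max n k)) :=
      nu_mono h0 hadd (sup_le inf_le_left inf_le_left)
    have e5 := h3 (max n k)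
    linarith
  have e6 : ∀ n, cap ν a' ≤ c - ν (b n ⊓ a) := by
    intro n
    apply cap_le h0
    refine ⟨fun k => b k ⊓ a', fun i j hij => inf_le_inf_right _ (h1 hij), ha', fun k => ?_⟩
    have := key n k
    linarith
  have e7 : cap ν a ≤ c - cap ν a' := by
    apply cap_le h0
    refine ⟨fun k => b k ⊓ a, fun i j hij => inf_le_inf_right _ (h1 hij), ha, fun k => ?_⟩
    have := e6 k
    linarith
  linarith

include h0 hadd in
lemma cap_mono {a b : B} (hab : a ≤ b) : cap ν a ≤ cap ν b := by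
  have h1 : b = a ⊔ (b \ a) := by simp [hab]
  have h2 := cap_super h0 hadd (a := a) (a' := b \ a) disjoint_sdiff_self_right
  rw [← h1] at h2
  have := cap_nonneg h0 (b \ a)
  linarith

include h0 hadd in
lemma sum_cap_le {d : ℕ → B} (hd : ∀ i j, i ≠ j → Disjoint (d i) (d j)) (N : ℕ) :
    ∑ i ∈ Finset.range N, cap ν (d i) ≤ cap ν ((Finset.range N).sup d) := by
  induction N with
  | zero =>
    simp only [Finset.range_zero, Finset.sum_empty]
    exact cap_nonneg h0 _
  | succ k ih =>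
    rw [Finset.range_add_one, Finset.sup_insert, Finset.sum_insert (by simp)]
    refine le_trans ?_ (cap_super h0 hadd ?_)
    · linarith
    · rw [Finset.disjoint_sup_right]
      intro i hi
      apply hd
      have : i < k := by simpa using hi
      omega

include h0 hadd in
lemma nu_sup_le (d : ℕ → B) (N : ℕ) :
    ν ((Finset.range N).sup d) ≤ ∑ i ∈ Finset.range N, ν (d i) := by
  induction N with
  | zero =>
    have := hadd ⊥ ⊥ (by simp)
    simp at this
    simp [this]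
  | succ k ih =>
    rw [Finset.range_add_one, Finset.sup_insert, Finset.sum_insert (by simp)]
    have h1 : d k ⊔ (Finset.range k).sup d = d k ⊔ ((Finset.range k).sup d \ d k) := by simp
    rw [h1, hadd _ _ disjoint_sdiff_self_right]
    have := nu_mono h0 hadd (a := (Finset.range k).sup d \ d k) (b := (Finset.range k).sup d)
      sdiff_le
    linarith

include h0 hadd in
lemma cap_hasSum {d : ℕ → B} (hd : ∀ i j, i ≠ j → Disjoint (d i) (d j)) :
    HasSum (fun n => cap ν (d n)) (cap ν (⨆ n, d n)) := by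
  have hb : ∀ N, ∑ i ∈ Finset.range N, cap ν (d i) ≤ cap ν (⨆ n, d n) := by
    intro N
    refine (sum_cap_le h0 hadd hd N).trans (cap_mono h0 hadd ?_)
    apply Finset.sup_le
    intro i _
    exact le_iSup d i
  have hs : Summable (fun n => cap ν (d n)) :=
    summable_of_sum_range_le (fun n => cap_nonneg h0 _) hb
  have h1 : ∑' n, cap ν (d n) ≤ cap ν (⨆ n, d n) := hs.tsum_le_of_sum_range_le hb
  have h2 : cap ν (⨆ n, d n) ≤ ∑' n, cap ν (d n) := by
    refine le_of_forall_pos_le_add ?_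
    intro ε hε
    have hlt : ∀ n : ℕ, cap ν (d n) < cap ν (d n) + ε / 2 * (1 / 2 : ℝ) ^ n := by
      intro n
      have : 0 < ε / 2 * (1 / 2 : ℝ) ^ n := by positivity
      linarith
    choose b hb1 hb2 hb3 using fun n => exists_of_cap_lt (hlt n)
    apply cap_le h0
    refine ⟨fun k => (Finset.range k).sup (fun j => b j k), ?_, ?_, ?_⟩
    · intro k l hkl
      apply Finset.sup_le
      intro j hj
      refine (hb1 j hkl).trans ?_
      exact Finset.le_sup (f := fun j => b j l) (Finset.range_mono hkl hj)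
    · apply le_antisymm
      · apply _root_.iSup_le
        intro k
        apply Finset.sup_le
        intro j _
        refine le_trans ?_ (le_iSup d j)
        rw [← hb2 j]
        exact le_iSup (b j) k
      · apply _root_.iSup_le
        intro j
        rw [← hb2 j]
        apply _root_.iSup_le
        intro k
        refine le_trans (hb1 j (le_max_left k (j + 1))) ?_
        refine le_trans ?_ (le_iSup _ (max k (j + 1)))
        refine Finset.le_sup (f := fun i => b i (max k (j + 1))) ?_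
        simp
    · intro k
      refine (nu_sup_le h0 hadd _ k).trans ?_
      have e1 : ∑ i ∈ Finset.range k, ν (b i k) ≤
          ∑ i ∈ Finset.range k, (cap ν (d i) + ε / 2 * (1 / 2 : ℝ) ^ i) :=
        Finset.sum_le_sum (fun i _ => hb3 i k)
      refine e1.trans ?_
      rw [Finset.sum_add_distrib, ← Finset.mul_sum]
      have e2 : ∑ i ∈ Finset.range k, cap ν (d i) ≤ ∑' n, cap ν (d n) :=
        hs.sum_le_tsum _ (fun n _ => cap_nonneg h0 _)
      have e3 : ∑ i ∈ Finset.range k, (1 / 2 : ℝ) ^ i ≤ 2 := geo_le k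
      have e4 : ε / 2 * ∑ i ∈ Finset.range k, (1 / 2 : ℝ) ^ i ≤ ε / 2 * 2 :=
        mul_le_mul_of_nonneg_left e3 (by positivity)
      linarith
  have h3 := le_antisymm h1 h2
  rw [← h3]
  exact hs.hasSum

include h0 hadd in
/-- Strict positivity of the countably additive part. -/
lemma cap_pos {m : B → ℝ} (hm : IsContOuter m) (hpos : ∀ a, a ≠ ⊥ → 0 < ν a) {a : B}
    (ha : a ≠ ⊥) : 0 < cap ν a := by
  by_contra hcon
  have hzero : cap ν a = 0 := le_antisymm (not_lt.mp hcon) (cap_nonneg h0 a)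
  have hlt : ∀ n : ℕ, cap ν a < 1 / ((n : ℝ) + 1) := by
    intro n
    rw [hzero]
    positivity
  choose b hb1 hb2 hb3 using fun n => exists_of_cap_lt (hlt n)
  have hma := hm.pos a ha
  have hex : ∀ k : ℕ, ∃ j, m (a \ b k j) ≤ m a / 4 * (1 / 2 : ℝ) ^ k := by
    intro k
    have h1 := tendsto_sdiff hm (hb1 k)
    rw [hb2 k] at h1
    have h2 : 0 < m a / 4 * (1 / 2 : ℝ) ^ k := by positivity
    obtain ⟨j, hj⟩ := (h1.eventually (gt_mem_nhds h2)).exists
    exact ⟨j, hj.le⟩
  choose j hj using hex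
  have hle : ∀ k, b k (j k) ≤ a := by
    intro k
    conv_rhs => rw [← hb2 k]
    exact le_iSup (b k) (j k)
  have h1 : a \ (⨅ k, b k (j k)) = ⨆ k, a \ b k (j k) := by
    rw [_root_.sdiff_eq, compl_iInf, inf_iSup_eq]
    simp only [_root_.sdiff_eq]
  have h2 : m (a \ (⨅ k, b k (j k))) ≤ m a / 2 := by
    rw [h1]
    apply hm.iSup_le
    intro N
    refine (Finset.sum_le_sum (fun k _ => hj k)).trans ?_
    rw [← Finset.mul_sum]
    have e3 : ∑ i ∈ Finset.range N, (1 / 2 : ℝ) ^ i ≤ 2 := geo_le N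
    have e4 := mul_le_mul_of_nonneg_left e3 (show 0 ≤ m a / 4 by positivity)
    linarith
  have h3 : (⨅ k, b k (j k)) ≠ ⊥ := by
    intro h4
    rw [h4, sdiff_bot] at h2
    linarith
  have h5 := hpos _ h3
  obtain ⟨n, hn⟩ := exists_nat_one_div_lt h5
  have h6 : ν (⨅ k, b k (j k)) ≤ ν (b n (j n)) := nu_mono h0 hadd (iInf_le _ n)
  have h7 := hb3 n (j n)
  linarith

end CA

theorem main (hyp : ∀ C : BooleanSubalgebra B, IsCountablyGenerated C →
      ∃ μ : C → ℝ, IsMeasure μ)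
    (hm : ∃ m : B → ℝ, IsContOuter m) : ∃ μ : B → ℝ, IsMeasure μ := by
  obtain ⟨m, hm⟩ := hm
  by_cases hB : (⊤ : B) = ⊥
  · have hall : ∀ a : B, a = ⊥ := fun a => le_bot_iff.mp (hB ▸ le_top)
    refine ⟨fun _ => 0, fun _ => le_rfl, fun a ha => absurd (hall a) ha, ?_⟩
    intro a s _ _
    exact hasSum_zero
  · have hyp' : ∀ G : Set B, G.Countable → ∃ μ : B → ℝ, MOn (gen G) μ := by
      intro G hG
      obtain ⟨μ, hμ⟩ := hyp (gen G) (gen_cg hG)
      exact MOn.of_isMeasure (gen_complete G) hμ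
    have h1 : ∀ ε : ℝ, 0 < ε → ∃ δ : ℝ, 0 < δ ∧ ∃ ν : B → ℝ, (∀ a, 0 ≤ ν a ∧ ν a ≤ 1) ∧
        (∀ a b, Disjoint a b → ν (a ⊔ b) = ν a + ν b) ∧ (∀ a, ε ≤ m a → δ ≤ ν a) := by
      intro ε hε
      obtain ⟨δ, hδ, h⟩ := uniform_modulus hm hB hyp' hε
      exact ⟨δ, hδ, exists_fa h⟩
    obtain ⟨ν, h2, h3, h4⟩ := exists_pos_fa hm h1
    refine ⟨cap ν, fun a => cap_nonneg h2 a, fun a ha => cap_pos h2 h4 hm h3 ha, ?_⟩
    intro a s hd hs
    have h5 : s = ⨆ n, a n := hs.unique isLUB_iSup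
    rw [h5]
    exact cap_hasSum h2 h4 hd

end Pool.Agent.R318.MA
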